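import Pool.Agent.W2helper5.KA.Stm2

set_option autoImplicit false

namespace Pool.Agent.W2helper35.KA

open Pool.Agent.W2helper5.KA2

theorem p_num : P_NUM := by
  intro hcyc hcon hidx G M _ _ _ ω hω A B hAB hA hB g
  have hN0 : orderOf g ≠ 0 := (orderOf_pos g).ne'
  have hz1 : z ω g ^ orderOf g = 1 := (hcyc G M ω hω g).1
  have hO0 : orderOf (z ω g) ≠ 0 := by
    have h1 : orderOf (z ω g) ∣ orderOf g := orderOf_dvd_of_pow_eq_one hz1
    intro h0
    rw [h0, zero_dvd_iff] at h1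
    exact hN0 h1
  have hG0 : Nat.card G ≠ 0 := Nat.card_pos.ne'
  rw [← Nat.factorization_prime_le_iff_dvd (mul_ne_zero hN0 hO0) hG0]
  intro p hp
  rw [Nat.factorization_mul hN0 hO0, Finsupp.add_apply]
  set a := (orderOf g).factorization p with ha
  set e := orderOf g / p ^ a with he
  have hpe : p ^ a * e = orderOf g := Nat.ordProj_mul_ordCompl_eq_self _ _
  have he0 : e ≠ 0 := by
    intro h0
    rw [h0, mul_zero] at hpe
    exact hN0 hpe.symm
  have hed : e ∣ orderOf g := ⟨p ^ a, by rw [mul_comm]; exact hpe.symm⟩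
  have hpne : ¬ p ∣ e := Nat.not_dvd_ordCompl hp hN0
  have hord : orderOf (g ^ e) = p ^ a := by
    rw [orderOf_pow_of_dvd he0 hed]
    conv_lhs => rw [← hpe]
    exact Nat.mul_div_cancel _ (Nat.pos_of_ne_zero he0)
  obtain ⟨c, hc, hdvd, hor⟩ := hidx G A B hAB (g ^ e) p a hp hord
  have hz2 : z ω (g ^ e) = z ω g ^ e := (hcyc G M ω hω g).2 e hed
  have hz3 : z ω ((g ^ e) ^ p ^ (a - c)) = z ω (g ^ e) ^ p ^ (a - c) := by
    apply (hcyc G M ω hω (g ^ e)).2
    rw [hord]
    exact pow_dvd_pow p (Nat.sub_le a c)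
  have hconj : ∀ (C : Subgroup G), TrivialOn ω C → ∀ x h : G, h⁻¹ * x * h ∈ C → z ω x = 1 := by
    intro C hC x h hx
    have h1 := (hcon G M ω hω).1 C (h⁻¹ * x * h) hC hx
    have h2 := (hcon G M ω hω).2 (h⁻¹ * x * h) h
    rw [h1] at h2
    rw [← h2]
    congr 1
    group
  have hz4 : z ω ((g ^ e) ^ p ^ (a - c)) = 1 := by
    rcases hor with ⟨h, hh⟩ | ⟨h, hh⟩
    · exact hconj A hA _ h hh
    · exact hconj B hB _ h hh
  have hz5 : z ω g ^ (e * p ^ (a - c)) = 1 := by
    rw [pow_mul, ← hz2, ← hz3, hz4]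
  have hO : orderOf (z ω g) ∣ e * p ^ (a - c) := orderOf_dvd_of_pow_eq_one hz5
  have hO1 : (orderOf (z ω g)).factorization p ≤ a - c := by
    have h1 : (orderOf (z ω g)).factorization p ≤ (e * p ^ (a - c)).factorization p :=
      (Nat.factorization_le_iff_dvd hO0 (mul_ne_zero he0 (pow_ne_zero _ hp.ne_zero))).2 hO p
    rw [Nat.factorization_mul he0 (pow_ne_zero _ hp.ne_zero), Finsupp.add_apply,
      Nat.factorization_eq_zero_of_not_dvd hpne, hp.factorization_pow, Finsupp.single_eq_same,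
      zero_add] at h1
    exact h1
  have hG : 2 * a - c ≤ (Nat.card G).factorization p :=
    (hp.pow_dvd_iff_le_factorization hG0).1 hdvd
  omega

end Pool.Agent.W2helper35.KA
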